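import Pool.Agent.Helper69.RK.StE

/-! Real sticky Kakeya sets: conditioning on sums of neighbours. -/

namespace Pool.Agent.Helper61.RSK

open Finset Pool.Agent.Helper69.RK

/-- subadditivity of the entropy of a tuple -/
theorem CH_tuple_le (h1 : ST_E1) (h2 : ST_E2) {Ω α γ : Type} [Fintype Ω] (μ : Ω → ℝ) (hμ : ∀ ω, 0 ≤ μ ω)
    (G : Ω → γ) : ∀ (r : ℕ) (T : Fin r → Ω → α),
      CH μ (fun ω b => T b ω) G ≤ ∑ b, CH μ (T b) G := by
  intro r
  induction r with
  | zero =>
    intro T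
    have h0 : CH μ (fun ω (b : Fin 0) => T b ω) G = 0 := by
      refine h2.2.2 Ω (Fin 0 → α) γ μ _ G hμ ?_
      intro ω ω' _ _ _
      exact Subsingleton.elim _ _
    rw [h0]
    simp
  | succ r ih =>
    intro T
    have hd : CH μ (fun ω b => T b ω) G ≤ CH μ (fun ω => (T 0 ω, fun b : Fin r => T b.succ ω)) G := by
      refine h2.1 Ω _ _ γ μ _ _ G hμ ?_
      intro ω ω' _ _ hg
      have hg' : ((T 0 ω, fun b : Fin r => T b.succ ω), G ω) = ((T 0 ω', fun b : Fin r => T b.succ ω'), G ω') := hg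
      rw [Prod.mk.injEq, Prod.mk.injEq] at hg'
      obtain ⟨⟨h0, hs⟩, _⟩ := hg'
      funext b
      refine Fin.cases ?_ (fun c => ?_) b
      · exact h0
      · exact congrFun hs c
    have hc := (h1 Ω α (Fin r → α) γ μ (T 0) (fun ω b => T b.succ ω) G hμ).2.1
    have hsub := (h1 Ω (Fin r → α) α γ μ (fun ω b => T b.succ ω) (T 0) G hμ).2.2
    have hI := ih (fun b => T b.succ)
    rw [Fin.sum_univ_succ]
    linarith

theorem st_E11 (h1 : ST_E1) (h2 : ST_E2) : ST_E11 := by
  intro Ω 𝔾 γ δ _ _ r μ X S G h ε ε' hμ hS hSS hall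
  -- the full tuple
  have hsumS : CH μ (fun ω b => S b ω) G ≤ (r + 1) * h := by
    have := CH_tuple_le h1 h2 μ hμ G (r + 1) S
    simp only [hS, Finset.sum_const, Finset.card_univ, Fintype.card_fin, nsmul_eq_mul] at this
    push_cast at this
    exact this
  have hSX : CH μ (fun ω b => S b ω) (fun ω => (X ω, G ω)) ≤ CH μ (fun ω b => S b ω) G :=
    (h1 Ω (Fin (r + 1) → 𝔾) δ γ μ (fun ω b => S b ω) X G hμ).2.2
  constructor
  · -- sums of neighbours
    have hT : CH μ (fun ω (b : Fin r) => S b.castSucc ω + S b.succ ω) G ≤ r * (h + ε) := by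
      have h3 := CH_tuple_le h1 h2 μ hμ G r (fun b ω => S b.castSucc ω + S b.succ ω)
      have h4 : ∑ b : Fin r, CH μ (fun ω => S b.castSucc ω + S b.succ ω) G ≤ ∑ _b : Fin r, (h + ε) := by
        refine Finset.sum_le_sum fun b _ => ?_
        exact hSS b.castSucc b.succ (Fin.castSucc_lt_succ).ne
      simp only [Finset.sum_const, Finset.card_univ, Fintype.card_fin, nsmul_eq_mul] at h4
      exact h3.trans h4
    have hdep : CH μ (fun ω b => S b ω) G ≤
        CH μ (fun ω => ((fun b : Fin r => S b.castSucc ω + S b.succ ω), S 0 ω)) G := by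
      refine h2.1 Ω _ _ γ μ _ _ G hμ ?_
      intro ω ω' _ _ hg
      have hg' : (((fun b : Fin r => S b.castSucc ω + S b.succ ω), S 0 ω), G ω) =
        (((fun b : Fin r => S b.castSucc ω' + S b.succ ω'), S 0 ω'), G ω') := hg
      rw [Prod.mk.injEq, Prod.mk.injEq] at hg'
      obtain ⟨⟨hs, h0⟩, _⟩ := hg'
      funext b
      refine Fin.induction (motive := fun b => S b ω = S b ω') h0 (fun c ihc => ?_) b
      have := congrFun hs c
      have hh : S c.castSucc ω + S c.succ ω = S c.castSucc ω' + S c.succ ω' := this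
      rw [ihc] at hh
      exact add_left_cancel hh
    have hc := (h1 Ω (Fin r → 𝔾) 𝔾 γ μ (fun ω (b : Fin r) => S b.castSucc ω + S b.succ ω) (S 0) G hμ).2.1
    nlinarith [hc, hdep, hT, hall, hSX]
  · have hc1 := (h1 Ω δ (Fin (r + 1) → 𝔾) γ μ X (fun ω b => S b ω) G hμ).2.1
    have hc2 := (h1 Ω (Fin (r + 1) → 𝔾) δ γ μ (fun ω b => S b ω) X G hμ).2.1
    have hsw : CH μ (fun ω => (X ω, fun b => S b ω)) G ≤ CH μ (fun ω => ((fun b => S b ω), X ω)) G := by
      refine h2.1 Ω _ _ γ μ _ _ G hμ ?_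
      intro ω ω' _ _ hg
      have hg' : (((fun b => S b ω), X ω), G ω) = (((fun b => S b ω'), X ω'), G ω') := hg
      rw [Prod.mk.injEq, Prod.mk.injEq] at hg'
      obtain ⟨⟨hs, h0⟩, _⟩ := hg'
      exact Prod.ext h0 hs
    linarith

end Pool.Agent.Helper61.RSK
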